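import Pool.Agent.X98.QG.Phi

/-!
# MP_87a692_al, Q1 (proved)

Let `φ` be a nonstandard involution of the real quaternions. If the system
`A_ℓ x^(ℓ) + … + A_1 x' + A_0 x = 0` has invertible `A_ℓ`, `φ`-hermitian `A_k` for even `k` and
`φ`-skewhermitian `A_k` for odd `k`, and is stably bounded, then all root subspaces of its companion
matrix `C` are `(G, φ)`-definite.

`IsNonstandardInvolution`, `phiTranspose`, `SymCoeffPhi`, `IsStablyBoundedPhi`, `phiForm` and
`IsPhiDefinite` are in `Pool/Agent/X98/QG/Phi.lean`; `companion`, `gmat`, `IsSolution`,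
`IsBoundedSystem`, `IsEigenvalue` and `rootSubspace` are in `Pool/Agent/H636R3/QDefs.lean`.
-/

set_option autoImplicit false

open Matrix

namespace Pool.Agent.Results.MP_87a692_al.PhiDefinite

open Pool.Agent.H636R3.Quat Pool.Agent.X98.QG.Phi

/-- **Q1 holds** (for every `ℓ ≥ 1`, in particular for every `ℓ ≥ 2`). -/
theorem result (φ : H →ₗ[ℝ] H) (hφ : IsNonstandardInvolution φ) (n ℓ : ℕ) (hn : 1 ≤ n)
    (hℓ : 1 ≤ ℓ) (A : ℕ → Matrix (Fin n) (Fin n) H) (hA : SymCoeffPhi φ ℓ A) (hinv : IsUnit (A ℓ))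
    (hst : IsStablyBoundedPhi φ ℓ A) (l : H) (hl : IsEigenvalue (companion ℓ A) l) :
    IsPhiDefinite φ (gmat ℓ A) (rootSubspace (companion ℓ A) l) :=
  phi_definite φ hφ n ℓ hn hℓ A hA hinv hst l hl

end Pool.Agent.Results.MP_87a692_al.PhiDefinite
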